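import Pool.Agent.Lib_helper32.BoxNet.Data

/-!
# A common net of two boxes with independent, non-crossing creases

Q1 of the problem asks whether there are a polyomino `P`, two different boxes and foldings of `P`
onto the two boxes whose crease sets are disjoint and do not cross.  The answer is yes: there is
such a polyomino with 94 cells for the boxes `1 × 11 × 3` and `5 × 7 × 1`.

The definitions (`IsPolyomino`, `IsFolding`, `IsCrease`, `Crosses`) are in
`Pool/Agent/Lib_helper32/BoxNet/Defs.lean`.

How it was found.  Two tubes with the same circumference `2 (a + b) = 2 (c + d)` have a common body,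
a rectangle with parallel creases of both foldings at disjoint places.  Comparing areas above a
common level shows that `2 (a + b)` must divide `a b - c d`; the smallest case is `1 × 11 × N`
against `5 × 7 × (N - 2)`.  The end pieces (35 unit squares each) were found with a satisfiability
solver.  The picture shows `P` for `N = 3`.

    . . . . # . . . . # # . . # # # . . . . . # . . . . .
    . . . # # . . . . # # . . . # # . . # # # # . . . . #
    . . . # # . # # # # # . . . # # . . # # # # . # # # #
    # # # # # # # # # # # # # # # # # # # # # # # # . . .
    . . . # # . # # # # # . . . # # . . # # # # . # # # #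
    . . . # # . . . . # # . . . # # . . # # # # . . . . #
    . . . . # . . . . # # . . # # # . . . . . # . . . . .
-/

namespace Pool.Agent.Results.MP_40ce5a_co.IndependentNoncrossingNet

open Pool.Agent.Lib_helper32.BoxNet

/-- There are a polyomino `P` and foldings of `P` onto the boxes `1 × 11 × 3` and `5 × 7 × 1` such
that no edge is a crease of both foldings and no crease of one folding crosses a crease of the
other. -/
theorem result : ∃ (P : Finset (ℤ × ℤ)) (F G : ℝ × ℝ → Fin 3 → ℝ),
    IsPolyomino P ∧ IsFolding P ![1, 11, 3] F ∧ IsFolding P ![5, 7, 1] G ∧
    (∀ e : GridEdge, ¬ (IsCrease P F e ∧ IsCrease P G e)) ∧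
    ∀ v : ℤ × ℤ, ¬ Crosses P F G v :=
  ⟨netCells.toFinset, interp (look tableF), interp (look tableG), net_isPolyomino, foldingF,
    foldingG, independent, notCrossing⟩

end Pool.Agent.Results.MP_40ce5a_co.IndependentNoncrossingNet
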